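import Mathlib
import Pool.Agent.MP_2023ef_al.h5.Main

universe u

/-- Over every field `k` there is a Bezout domain of Krull dimension two that is a `k`-algebra and
has a two by two matrix that is not equivalent to a diagonal matrix. -/
theorem Pool.Agent.Results.MP_2023ef_al.DimTwo.result (k : Type u) [Field k] :
    ∃ (A : Type u) (_ : CommRing A) (_ : IsDomain A) (_ : IsBezout A) (_ : Algebra k A),
      ringKrullDim A = 2 ∧ ∃ M : Matrix (Fin 2) (Fin 2) A,
        ∀ C D : Matrix (Fin 2) (Fin 2) A, IsUnit C → IsUnit D → ¬(C * M * D).IsDiag :=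
  Pool.Agent.MP_2023ef_al.H5.main k
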