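import Mathlib
import Pool.Agent.MP_2023ef_al.h81.Quad

/-- Let `A` be a Bezout domain whose field of fractions `K` has a valuation ring `O` (possibly `K`
itself) such that `Z ^ 2 - Z + η` has a root in `K` for all `η` in the maximal ideal of `O`, and
whose residue field has finitely many separable quadratic extensions. Then every two by two matrix
over `A` is equivalent to a diagonal matrix. -/
theorem Pool.Agent.Results.MP_2023ef_al.FewQuadratic.result {A K : Type*} [CommRing A] [IsDomain A]
    [IsBezout A] [Field K] [Algebra A K] [IsFractionRing A K] (O : ValuationSubring K)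
    (hO : ∀ η : O, η ∈ IsLocalRing.maximalIdeal O → ∃ z : K, z ^ 2 - z + η = 0)
    (hK : {L : IntermediateField (IsLocalRing.ResidueField O)
        (AlgebraicClosure (IsLocalRing.ResidueField O)) |
      Module.finrank (IsLocalRing.ResidueField O) L = 2 ∧
        Algebra.IsSeparable (IsLocalRing.ResidueField O) L}.Finite)
    (M : Matrix (Fin 2) (Fin 2) A) :
    ∃ C D : Matrix (Fin 2) (Fin 2) A, IsUnit C ∧ IsUnit D ∧ (C * M * D).IsDiag :=
  Pool.Agent.MP_2023ef_al.H81.main_quad O hO hK M
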