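import Mathlib
import Pool.Agent.MP_2023ef_al.h81.Main

/-- There is a Bezout domain, an algebra over the complex numbers all of whose residue fields at
maximal ideals are the complex numbers, with a two by two matrix `M` such that no block sum of
`n ≥ 1` copies of `M` and an identity matrix is equivalent to a diagonal matrix. -/
theorem Pool.Agent.Results.MP_2023ef_al.InfiniteOrder.result :
    ∃ (A : Type) (_ : CommRing A) (_ : IsDomain A) (_ : IsBezout A) (_ : Algebra ℂ A),
      (∀ m : Ideal A, m.IsMaximal → Function.Surjective (algebraMap ℂ (A ⧸ m))) ∧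
      ∃ M : Matrix (Fin 2) (Fin 2) A,
        ∀ n k : ℕ, n ≠ 0 → ∀ C D : Matrix ((Fin 2 × Fin n) ⊕ Fin k) ((Fin 2 × Fin n) ⊕ Fin k) A,
          IsUnit C → IsUnit D →
            ¬(C * Matrix.fromBlocks (Matrix.blockDiagonal fun _ : Fin n => M) 0 0 1 * D).IsDiag := by
  obtain ⟨A, i1, i2, i3, i4, h, M, -, hM⟩ := Pool.Agent.MP_2023ef_al.H81.main
  exact ⟨A, i1, i2, i3, i4, h, M, hM⟩
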